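import Pool.Agent.E8helper15.FT.Stm3
import Pool.Agent.E8helper54.FT.Iter

/-!
# Project FT (helper15), piece ITER3: one step of the power map
-/

set_option autoImplicit false

namespace Pool.Agent.E8helper56.FT

open NumberField IsDedekindDomain
open Pool.Agent.E8helper15.FT
open Pool.Agent.E8helper54.FT (log_nn norm_ne log_lrad supp_fin lt_one)

variable {K : Type} [Field K] [NumberField K]

/-- the height of `1 + t + ... + t ^ n` -/
lemma geom_height (t : K) (n : ℕ) :
    Height.logHeight₁ (∑ i ∈ Finset.range (n + 1), t ^ i) ≤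
      n * Height.logHeight₁ t + n * (Height.totalWeight K * Real.log 2) := by
  induction n with
  | zero => simp
  | succ n ih =>
    rw [geom_sum_succ]
    have h1 := Height.logHeight₁_add_le (t * ∑ i ∈ Finset.range (n + 1), t ^ i) (1 : K)
    have h2 := Height.logHeight₁_mul_le t (∑ i ∈ Finset.range (n + 1), t ^ i)
    rw [Height.logHeight₁_one] at h1
    push_cast
    linarith

/-- the radical of `t ^ m` -/
lemma lrad_pow (h2 : S_SUP) (m : ℕ) (hm : 1 ≤ m) : ∃ c : ℝ, ∀ t : K, t ≠ 0 → t ≠ 1 → t ^ m ≠ 1 →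
    Real.log (lrad (t ^ m)) ≤ Real.log (lrad t) + ((m : ℝ) - 1) * Height.logHeight₁ t + c := by
  refine ⟨((m : ℝ) - 1) * (Height.totalWeight K * Real.log 2), ?_⟩
  intro t h0 h1 hm1
  have hl0 : t ^ m ≠ 0 := pow_ne_zero m h0
  set q : K := ∑ i ∈ Finset.range m, t ^ i with hq
  have e1 : (1 - t) * q = 1 - t ^ m := mul_neg_geom_sum t m
  have hq0 : q ≠ 0 := by
    intro h
    rw [h, mul_zero] at e1
    exact hm1 (sub_eq_zero.mp e1.symm).symm
  have hF := supp_fin h2 h0 h1
  have hF' := supp_fin h2 hl0 hm1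
  obtain ⟨hW0, hW⟩ := h2 K q hq0
  rw [log_lrad hF, log_lrad hF']
  classical
  set W : Finset (HeightOneSpectrum (𝓞 K)) :=
    hW0.toFinset.filter (fun v => v.valuation K q < 1) with hWdef
  have hWsum : ∑ v ∈ W, Real.log (Ideal.absNorm v.asIdeal) ≤ Height.logHeight₁ q := by
    have := hW 1 le_rfl W (fun v hv => by
      have h3 := (Finset.mem_filter.1 hv).2
      have h4 : v.valuation K q ≠ 0 := (Valuation.ne_zero_iff _).2 hq0
      exact lt_one h4 h3)
    rwa [Nat.cast_one, one_mul] at this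
  have hsub : hF'.toFinset ⊆ hF.toFinset ∪ W := by
    intro v hv
    rw [Set.Finite.mem_toFinset] at hv
    by_contra hcon
    rw [Finset.mem_union, not_or, Set.Finite.mem_toFinset] at hcon
    obtain ⟨hn1, hn3⟩ := hcon
    have a1 : v.valuation K t = 1 ∧ v.valuation K (1 - t) = 1 := by
      by_contra h
      apply hn1
      by_cases hh : v.valuation K t = 1
      · exact Or.inr (fun h' => h ⟨hh, h'⟩)
      · exact Or.inl hh
    have a3 : v.valuation K q ≤ 1 := by
      refine Valuation.map_sum_le _ (fun i _ => ?_)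
      rw [map_pow, a1.1, one_pow]
    have a4 : v.valuation K q = 1 := by
      by_contra h
      apply hn3
      rw [hWdef, Finset.mem_filter, Set.Finite.mem_toFinset]
      exact ⟨h, lt_of_le_of_ne a3 h⟩
    have a5 : v.valuation K (t ^ m) = 1 := by
      rw [map_pow, a1.1, one_pow]
    have a6 : v.valuation K (1 - t ^ m) = 1 := by
      rw [← e1, map_mul, a1.2, a4, one_mul]
    rcases hv with h | h
    · exact h a5
    · exact h a6
  have hs1 : ∑ v ∈ hF'.toFinset, Real.log (Ideal.absNorm v.asIdeal) ≤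
      ∑ v ∈ hF.toFinset ∪ W, Real.log (Ideal.absNorm v.asIdeal) :=
    Finset.sum_le_sum_of_subset_of_nonneg hsub (fun v _ _ => log_nn v)
  have hs2 : ∑ v ∈ hF.toFinset ∪ W, Real.log (Ideal.absNorm v.asIdeal) ≤
        ∑ v ∈ hF.toFinset, Real.log (Ideal.absNorm v.asIdeal) +
          ∑ v ∈ W, Real.log (Ideal.absNorm v.asIdeal) := by
    rw [← Finset.sum_union_inter]
    have : 0 ≤ ∑ v ∈ hF.toFinset ∩ W, Real.log (Ideal.absNorm v.asIdeal) :=
      Finset.sum_nonneg (fun v _ => log_nn v)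
    linarith
  have hg := geom_height t (m - 1)
  rw [Nat.sub_add_cancel hm, Nat.cast_sub hm, Nat.cast_one, ← hq] at hg
  linarith

theorem t_ITER3 (_h1 : S_HT) (h2 : S_SUP) : S_ITER3 := by
  intro K _ _ S m hm hS ε hε
  obtain ⟨c3, hc3⟩ := lrad_pow (K := K) h2 m hm
  have hm1 : (1 : ℝ) ≤ m := by exact_mod_cast hm
  obtain ⟨D, hD⟩ : ∃ D : ℝ, D = 1 + (1 + ε) * ((m : ℝ) - 1) := ⟨_, rfl⟩
  have hD0 : 0 < D := by
    rw [hD]
    have : 0 ≤ (1 + ε) * ((m : ℝ) - 1) := mul_nonneg (by linarith) (by linarith)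
    linarith
  obtain ⟨ε', hε'⟩ : ∃ ε' : ℝ, ε' = ε / D := ⟨_, rfl⟩
  have hε'0 : 0 < ε' := by
    rw [hε']
    positivity
  obtain ⟨c2, hc2⟩ := hS ε' hε'0
  have e0 : ε' * D = ε := by
    rw [hε']
    field_simp
  have e1 : (1 + ε') * D = (1 + ε) * m := by
    have : (1 + ε') * D = D + ε' * D := by ring
    rw [this, e0, hD]
    ring
  have e2 : (1 - ε' * ((m : ℝ) - 1)) * D = m := by
    have : (1 - ε' * ((m : ℝ) - 1)) * D = D - (ε' * D) * ((m : ℝ) - 1) := by ring
    rw [this, e0, hD]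
    ring
  obtain ⟨C, hC⟩ : ∃ C : ℝ, C = D / m * ((1 + ε') * c3 + c2) := ⟨_, rfl⟩
  refine ⟨|C|, ?_⟩
  intro t ht h0 h1'
  by_cases h12 : t ^ m = 1
  · have hh : Height.logHeight₁ t = 0 := by
      have h3 := Height.logHeight₁_pow t m
      rw [h12, Height.logHeight₁_one] at h3
      have hm0 : (m : ℝ) ≠ 0 := by linarith
      rcases mul_eq_zero.mp h3.symm with h | h
      · exact absurd h hm0
      · exact h
    have hr : 0 ≤ Real.log (lrad t) := by
      rw [log_lrad (supp_fin h2 h0 h1')]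
      exact Finset.sum_nonneg (fun v _ => log_nn v)
    rw [hh]
    have := abs_nonneg C
    have : 0 ≤ (1 + ε) * Real.log (lrad t) := mul_nonneg (by linarith) hr
    linarith
  · have a2 := hc2 (t ^ m) ⟨t, ht, rfl⟩ (pow_ne_zero m h0) h12
    rw [Height.logHeight₁_pow] at a2
    have a3 := hc3 t h0 h1' h12
    have a4 : (1 + ε') * Real.log (lrad (t ^ m)) ≤
        (1 + ε') * (Real.log (lrad t) + ((m : ℝ) - 1) * Height.logHeight₁ t + c3) :=
      mul_le_mul_of_nonneg_left a3 (by positivity)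
    have a5 : (1 - ε' * ((m : ℝ) - 1)) * Height.logHeight₁ t ≤ (1 + ε') * Real.log (lrad t) +
        ((1 + ε') * c3 + c2) := by
      have : (1 - ε' * ((m : ℝ) - 1)) * Height.logHeight₁ t =
        m * Height.logHeight₁ t - (1 + ε') * (((m : ℝ) - 1) * Height.logHeight₁ t) := by ring
      rw [this]
      linarith
    have hpos : 0 < D / m := by positivity
    have a6 := mul_le_mul_of_nonneg_left a5 hpos.le
    have hm0 : (m : ℝ) ≠ 0 := by linarith
    have a7 : D / m * ((1 - ε' * ((m : ℝ) - 1)) * Height.logHeight₁ t) = Height.logHeight₁ t := by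
      have : D / m * ((1 - ε' * ((m : ℝ) - 1)) * Height.logHeight₁ t) =
          ((1 - ε' * ((m : ℝ) - 1)) * D) / m * Height.logHeight₁ t := by ring
      rw [this, e2, div_self hm0, one_mul]
    have a8 : D / m * ((1 + ε') * Real.log (lrad t) + ((1 + ε') * c3 + c2)) =
        (1 + ε) * Real.log (lrad t) + C := by
      have : D / m * ((1 + ε') * Real.log (lrad t) + ((1 + ε') * c3 + c2)) =
          ((1 + ε') * D) / m * Real.log (lrad t) + D / m * ((1 + ε') * c3 + c2) := by ring
      rw [this, e1, hC, mul_div_assoc, div_self hm0, mul_one]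
    rw [a7, a8] at a6
    have := le_abs_self C
    linarith

end Pool.Agent.E8helper56.FT
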